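import Pool.Agent.MP_1246c0_nt.H25.SpecG
import Pool.Agent.MP_1246c0_nt.H60.SH2

/-! Short generators up to few ideals. -/

namespace Pool.Agent.MP_1246c0_nt.H25

open NumberField Finset IsDedekindDomain Pool.Agent.MP_db5b97_nt.H85
open Pool.Agent.MP_1246c0_nt.H12

namespace GVC

theorem pigeon {R Q : Type} [CommRing R] [AddCommGroup Q] {N p : ℕ} (hp : p ≠ 0) (hN : N ≠ 0)
    (e : Fin N → R) (hQ : Nat.card Q = p) (ψ : R →+ Q) :
    ∃ (L : ℕ) (a : Fin N → ℤ), L ^ N ≤ p ∧ a ≠ 0 ∧ (∀ j, |a j| ≤ L) ∧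
      ψ (∑ j, a j • e j) = 0 := by
  have : Finite Q := Nat.finite_of_card_ne_zero (hQ ▸ hp)
  have := Fintype.ofFinite Q
  have hex : ∃ L : ℕ, p < (L + 1) ^ N := ⟨p, (Nat.lt_succ_self p).trans_le (Nat.le_self_pow hN _)⟩
  classical
  have h1 := Nat.find_spec hex
  have h2 : Nat.find hex ^ N ≤ p := by
    rcases h : Nat.find hex with _ | L
    · rw [zero_pow hN]; exact Nat.zero_le _
    · exact not_lt.1 (Nat.find_min hex (m := L) (by omega))
  obtain ⟨a, b, hab, h⟩ := Fintype.exists_ne_map_eq_of_card_lt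
    (fun a : Fin N → Fin (Nat.find hex + 1) => ψ (∑ j, ((a j : ℕ) : ℤ) • e j))
    (by rw [← Nat.card_eq_fintype_card, hQ]; simpa using h1)
  refine ⟨Nat.find hex, fun j => ((a j : ℕ) : ℤ) - ((b j : ℕ) : ℤ), h2, fun h0 => hab ?_,
    fun j => ?_, ?_⟩
  · funext j
    have := congrFun h0 j
    simp only [Pi.zero_apply] at this
    exact Fin.ext (by omega)
  · have h3 := (a j).2
    have h4 := (b j).2
    beta_reduce
    rw [abs_le]; constructor <;> omega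
  · simp only [sub_smul, sum_sub_distrib, map_sub, h, sub_self]

variable {E : Type} [Field E] [NumberField E]

open Classical in
/-- the exponent of a prime in an ideal -/
noncomputable def cnt (v : Sp E) (c : Ideal (𝓞 E)) : ℕ :=
  (Associates.mk v.asIdeal).count (Associates.mk c).factors

theorem ord_eq (v : Sp E) (x : Un E) (a : 𝓞 E) (h : x.val = a) :
    ord v x = cnt v (Ideal.span {a}) := by
  have a0 : a ≠ 0 := fun h0 => x.val_ne (by rw [h, h0]; rfl)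
  change -WithZero.log (v.valuation E x.val) = _
  rw [h, show v.valuation E (a : E) = v.intValuation a from v.valuation_of_algebraMap a,
    v.intValuation_if_neg a0, WithZero.log_exp, neg_neg]
  rfl

theorem cnt_mul (v w : Sp E) {c : Ideal (𝓞 E)} (hc : c ≠ ⊥) :
    cnt v (w.asIdeal * c) = cnt v w.asIdeal + cnt v c := by
  classical
  unfold cnt
  rw [← Associates.mk_mul_mk]
  exact Associates.count_mul (Associates.mk_ne_zero.2 w.ne_bot) (Associates.mk_ne_zero.2 hc)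
    v.associates_irreducible

theorem cnt_self (v : Sp E) : cnt v v.asIdeal = 1 := by
  classical
  exact Associates.count_self v.associates_irreducible

theorem cnt_ne {v w : Sp E} (h : v ≠ w) : cnt v w.asIdeal = 0 := by
  classical
  refine Associates.count_eq_zero_of_ne v.associates_irreducible w.associates_irreducible fun e => h ?_
  exact HeightOneSpectrum.ext (associated_iff_eq.1 (Associates.mk_eq_mk_iff_associated.1 e))

theorem cnt_big {v : Sp E} {c : Ideal (𝓞 E)} (hc : c ≠ ⊥)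
    (h : Ideal.absNorm c < Ideal.absNorm v.asIdeal) : cnt v c = 0 := by
  classical
  by_contra h0
  have h1 := (Associates.count_ne_zero_iff_dvd hc v.irreducible).1 h0
  have h2 := Nat.le_of_dvd (Nat.pos_of_ne_zero (mt Ideal.absNorm_eq_zero_iff.1 hc))
    (map_dvd Ideal.absNorm h1)
  omega

theorem short {N K p : ℕ} (hN : N ≠ 0) (e : Fin N → 𝓞 E) (he : LinearIndependent ℤ e)
    (hb : ∀ (L : ℕ), ∀ x ∈ Box e L, |Algebra.norm ℤ x| ≤ (K * L) ^ N) (w : Sp E)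
    (hw : Ideal.absNorm w.asIdeal = p) : ∃ (a : 𝓞 E) (c : Ideal (𝓞 E)), a ≠ 0 ∧ c ≠ ⊥ ∧
      (∃ L, a ∈ Box e L ∧ L ^ N ≤ p) ∧ Ideal.span {a} = w.asIdeal * c ∧
      Ideal.absNorm c ≤ K ^ N ∧ |Algebra.norm ℤ a| = p * Ideal.absNorm c := by
  have hp : p ≠ 0 := hw ▸ mt Ideal.absNorm_eq_zero_iff.1 w.ne_bot
  obtain ⟨L, a, hL, a0, ha, h0⟩ := pigeon hp hN e (Q := 𝓞 E ⧸ w.asIdeal) hw
    (Ideal.Quotient.mk w.asIdeal).toAddMonoidHom
  have h1 : ∑ j, a j • e j ∈ w.asIdeal := Ideal.Quotient.eq_zero_iff_mem.1 h0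
  have h2 : ∑ j, a j • e j ≠ 0 := fun h => a0 (funext (Fintype.linearIndependent_iff.1 he a h))
  have h3 : ∑ j, a j • e j ∈ Box e L := ⟨a, ha, rfl⟩
  generalize ∑ j, a j • e j = x at h1 h2 h3
  obtain ⟨c, hc⟩ : w.asIdeal ∣ Ideal.span {x} :=
    Ideal.dvd_iff_le.2 ((Ideal.span_singleton_le_iff_mem _).2 h1)
  have n0 : Ideal.span {x} ≠ ⊥ := mt Ideal.span_singleton_eq_bot.1 h2
  have e2 := congrArg Ideal.absNorm hc
  rw [map_mul, hw, Ideal.absNorm_span_singleton] at e2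
  have e3 : |Algebra.norm ℤ x| = p * Ideal.absNorm c := by
    rw [Int.abs_eq_natAbs, e2]
    push_cast
    rfl
  refine ⟨x, c, h2, fun h => n0 (by rw [hc, h, Ideal.mul_bot]), ⟨L, h3, hL⟩, hc, ?_, e3⟩
  have h4 := hb L x h3
  rw [e3] at h4
  have h5 : p * Ideal.absNorm c ≤ (K * L) ^ N := by exact_mod_cast h4
  refine Nat.le_of_mul_le_mul_left (h5.trans ?_) (Nat.pos_of_ne_zero hp)
  rw [mul_pow, mul_comm]
  exact Nat.mul_le_mul_right _ hL

end GVC

open GVC in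
theorem rowGVC : SGVC := by
  intro E _ _ N K e A w hN hK he hb hA
  have N0 : N ≠ 0 := hN ▸ Module.finrank_pos.ne'
  have K1 : 1 ≤ K ^ N := Nat.one_le_pow _ _ hK
  obtain ⟨J, _, g, cJ, hJ⟩ := SH2.ideals E (K ^ N)
  have key : ∀ p, ∃ (j : J) (a : 𝓞 E) (α : Un E), p ∈ A → α.val = a ∧ g j ≠ ⊥ ∧
      (∃ L, a ∈ Box e L ∧ L ^ N ≤ p) ∧ Ideal.span {a} = (w p).asIdeal * g j ∧
      Ideal.absNorm (g j) ≤ K ^ N ∧ |Algebra.norm ℤ a| = p * Ideal.absNorm (g j) := by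
    intro p
    by_cases hp : p ∈ A
    · obtain ⟨a, c, a0, c0, h1, h2, h3, h4⟩ := short N0 e he hb (w p) (hA p hp).2
      obtain ⟨j, rfl⟩ := hJ c c0 h3
      exact ⟨j, a, Un.mk (a : E) (RingOfIntegers.coe_ne_zero_iff.2 a0), fun _ =>
        ⟨Un.val_mk _ _, c0, h1, h2, h3, h4⟩⟩
    · exact ⟨(hJ ⊤ top_ne_bot (by simpa using K1)).choose, 0, 0, fun h => absurd h hp⟩
  choose j a α h using key
  refine ⟨_, fun p => Finite.equivFin J (j p), a, α, ?_, fun p hp => ?_,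
    fun p hp p' hp' hτ v h1 h2 => ?_⟩
  · rw [hN] at cJ
    exact cJ.trans (Nat.pow_le_pow_right K1 (Nat.succ_le_succ (Nat.le_self_pow two_ne_zero _)))
  · obtain ⟨h1, h2, h3, h4, h5, h6⟩ := h p hp
    refine ⟨h1, h3, ⟨_, Nat.pos_of_ne_zero (mt Ideal.absNorm_eq_zero_iff.1 h2), h5, h6⟩, ?_,
      fun v hv hl => ?_⟩
    · rw [ord_eq _ _ _ h1, h4, cnt_mul _ _ h2, cnt_self,
        cnt_big h2 (by rw [(hA p hp).2]; exact h5.trans_lt (hA p hp).1)]
      rfl
    · rw [ord_eq _ _ _ h1, h4, cnt_mul _ _ h2, cnt_ne hv, cnt_big h2 (h5.trans_lt hl)]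
      rfl
  · obtain ⟨a1, a2, -, a4, -, -⟩ := h p hp
    obtain ⟨b1, b2, -, b4, -, -⟩ := h p' hp'
    have hj : j p = j p' := (Finite.equivFin J).injective hτ
    rw [ord_eq _ _ _ a1, ord_eq _ _ _ b1, a4, b4, cnt_mul _ _ a2, cnt_mul _ _ b2, cnt_ne h1,
      cnt_ne h2, hj]

end Pool.Agent.MP_1246c0_nt.H25
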